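import Mathlib

set_option autoImplicit false

/-!
# MP_6e521b_an: the map `Φ_P` is injective for all `n` and `P`

If `T` annihilates `P · H(ℂ^n)` and `F(T) = P* g` with `g` entire, put `G(ζ) = conj (g (conj ζ))`.
Then `P(ζ) G(ζ) = conj (F(T)(conj ζ)) = ∑ conj (T(ζ^α)) ζ^α / α!`, so that
`0 = T(P G) = ∑ |T(ζ^α)|^2 / α!` and `T` vanishes on all monomials, hence on `H(ℂ^n)`.
-/

namespace Pool.Agent.Results.MP_6e521b_an.Injective

/-! ### the definitions used in the statement -/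

/-- entire functions on `ℂ^n` -/
def Entire {n : ℕ} (f : (Fin n → ℂ) → ℂ) : Prop := Differentiable ℂ f

/-- `T` is an analytic functional on `H(ℂ^n)`: only the values of `T` at entire functions matter;
`T` is linear on them, and continuous for the topology of uniform convergence on compact sets,
i.e. bounded by a multiple of the supremum over some compact set -/
structure IsAF {n : ℕ} (T : ((Fin n → ℂ) → ℂ) → ℂ) : Prop where
  add : ∀ f g : (Fin n → ℂ) → ℂ, Entire f → Entire g → T (fun z => f z + g z) = T f + T g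
  smul : ∀ (c : ℂ) (f : (Fin n → ℂ) → ℂ), Entire f → T (fun z => c * f z) = c * T f
  bound : ∃ (K : Set (Fin n → ℂ)) (C : ℝ), IsCompact K ∧
    ∀ (f : (Fin n → ℂ) → ℂ) (M : ℝ), Entire f → 0 ≤ M → (∀ z ∈ K, ‖f z‖ ≤ M) → ‖T f‖ ≤ C * M

/-- the Fourier-Borel transform `F(T)(z) = T(ζ ↦ exp ⟨ζ, z⟩)` -/
noncomputable def FBorel {n : ℕ} (T : ((Fin n → ℂ) → ℂ) → ℂ) (z : Fin n → ℂ) : ℂ :=
  T (fun ζ => Complex.exp (∑ j, ζ j * z j))

/-- entire functions of exponential type -/
def ExpType {n : ℕ} (f : (Fin n → ℂ) → ℂ) : Prop :=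
  Entire f ∧ ∃ C B : ℝ, ∀ z, ‖f z‖ ≤ C * Real.exp (B * ‖z‖)

/-- `T` belongs to the annihilator `(P · H(ℂ^n))^⊥` -/
def InPerp {n : ℕ} (P : MvPolynomial (Fin n) ℂ) (T : ((Fin n → ℂ) → ℂ) → ℂ) : Prop :=
  IsAF T ∧ ∀ f : (Fin n → ℂ) → ℂ, Entire f → T (fun z => MvPolynomial.eval z P * f z) = 0

/-- the polynomial `P*`: all coefficients are replaced by their complex conjugates -/
noncomputable def star {n : ℕ} (P : MvPolynomial (Fin n) ℂ) : MvPolynomial (Fin n) ℂ :=
  MvPolynomial.map (starRingEnd ℂ) P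

/-- `f` belongs to `P* · Exp(ℂ^n)` -/
def InPStarExp {n : ℕ} (P : MvPolynomial (Fin n) ℂ) (f : (Fin n → ℂ) → ℂ) : Prop :=
  ∃ g : (Fin n → ℂ) → ℂ, ExpType g ∧ ∀ z, f z = MvPolynomial.eval z (star P) * g z

/-! ### auxiliary definitions and the proof -/

/-- the space `H(ℂ^n)` of entire functions on `ℂ^n` -/
def H (n : ℕ) : Submodule ℂ ((Fin n → ℂ) → ℂ) where
  carrier := {f | Differentiable ℂ f}
  add_mem' := fun hf hg => Differentiable.add hf hg
  zero_mem' := differentiable_const 0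
  smul_mem' := fun c _ hf => Differentiable.const_smul hf c

/-- `T` is an analytic functional: a linear functional on `H(ℂ^n)` which is continuous for the
topology of uniform convergence on compact sets, i.e. bounded by a multiple of the supremum over
some compact set -/
def IsAnalyticFunctional {n : ℕ} (T : H n →ₗ[ℂ] ℂ) : Prop :=
  ∃ (K : Set (Fin n → ℂ)) (C : ℝ), IsCompact K ∧
    ∀ (f : H n) (M : ℝ), 0 ≤ M → (∀ z ∈ K, ‖f.1 z‖ ≤ M) → ‖T f‖ ≤ C * M

theorem expo_mem {n : ℕ} (z : Fin n → ℂ) :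
    (fun ζ : Fin n → ℂ => Complex.exp (∑ j, ζ j * z j)) ∈ H n := by
  show Differentiable ℂ fun ζ : Fin n → ℂ => Complex.exp (∑ j, ζ j * z j)
  fun_prop

/-- the entire function `ζ ↦ exp ⟨ζ, z⟩` -/
noncomputable def expo {n : ℕ} (z : Fin n → ℂ) : H n :=
  ⟨fun ζ => Complex.exp (∑ j, ζ j * z j), expo_mem z⟩

/-- the Fourier-Borel transform `F(T)(z) = T(ζ ↦ exp ⟨ζ, z⟩)` -/
noncomputable def FBT {n : ℕ} (T : H n →ₗ[ℂ] ℂ) (z : Fin n → ℂ) : ℂ := T (expo z)

/-- entire functions of exponential type -/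
def IsExp {n : ℕ} (f : (Fin n → ℂ) → ℂ) : Prop :=
  Differentiable ℂ f ∧ ∃ C B : ℝ, ∀ z, ‖f z‖ ≤ C * Real.exp (B * ‖z‖)

theorem mulP_mem {n : ℕ} (P : MvPolynomial (Fin n) ℂ) (f : H n) :
    (fun z : Fin n → ℂ => MvPolynomial.eval z P * f.1 z) ∈ H n := by
  have h : Differentiable ℂ (fun z : Fin n → ℂ => MvPolynomial.eval z P) := by
    induction P using MvPolynomial.induction_on with
    | C a => simp
    | add p q hp hq =>
      simp only [map_add]
      exact hp.fun_add hq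
    | mul_X p i hp =>
      simp only [map_mul, MvPolynomial.eval_X]
      exact hp.fun_mul (differentiable_apply i)
  exact h.mul f.2

/-- the product of a polynomial and an entire function -/
noncomputable def mulP {n : ℕ} (P : MvPolynomial (Fin n) ℂ) (f : H n) : H n :=
  ⟨fun z => MvPolynomial.eval z P * f.1 z, mulP_mem P f⟩

/-- the polynomial `P*`: all coefficients are replaced by their complex conjugates -/
noncomputable def conjP {n : ℕ} (P : MvPolynomial (Fin n) ℂ) : MvPolynomial (Fin n) ℂ :=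
  MvPolynomial.map (starRingEnd ℂ) P

theorem mono_mem {n : ℕ} (α : Fin n → ℕ) :
    (fun ζ : Fin n → ℂ => ∏ i, ζ i ^ α i) ∈ H n := by
  show Differentiable ℂ fun ζ : Fin n → ℂ => ∏ i, ζ i ^ α i
  fun_prop

/-- the monomial `ζ^α` -/
noncomputable def mono {n : ℕ} (α : Fin n → ℕ) : H n :=
  ⟨fun ζ => ∏ i, ζ i ^ α i, mono_mem α⟩


/-! ### jP -/

/-- products of absolutely convergent series -/
theorem prod_hasSum {n : ℕ} (f : Fin n → ℕ → ℂ) (hf : ∀ i, Summable (fun k => ‖f i k‖)) :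
    Summable (fun α : Fin n → ℕ => ‖∏ i, f i (α i)‖) ∧
      HasSum (fun α : Fin n → ℕ => ∏ i, f i (α i)) (∏ i, ∑' k, f i k) := by
  induction n with
  | zero =>
    constructor
    · exact Summable.of_finite
    · have h := hasSum_fintype (fun α : Fin 0 → ℕ => ∏ i, f i (α i))
      simpa using h
  | succ n ih =>
    obtain ⟨h1, h2⟩ := ih (fun i => f i.succ) (fun i => hf i.succ)
    have hs : Summable (fun x : ℕ × (Fin n → ℕ) => ‖f 0 x.1 * ∏ i, f (Fin.succ i) (x.2 i)‖) := by
      have h3 := (hf 0).mul_of_nonneg h1 (fun _ => norm_nonneg _) (fun _ => norm_nonneg _)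
      refine h3.congr fun x => ?_
      rw [norm_mul]
    constructor
    · rw [← (Fin.consEquiv (fun _ : Fin (n + 1) => ℕ)).summable_iff]
      refine hs.congr fun x => ?_
      show _ = ‖∏ i, f i ((Fin.consEquiv (fun _ : Fin (n + 1) => ℕ)) x i)‖
      rw [Fin.prod_univ_succ]
      rfl
    · rw [← (Fin.consEquiv (fun _ : Fin (n + 1) => ℕ)).hasSum_iff, Fin.prod_univ_succ]
      have h4 : HasSum (f 0) (∑' k, f 0 k) := (hf 0).of_norm.hasSum
      have h5 := h4.mul h2 hs.of_norm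
      have h6 : ((fun α : Fin (n + 1) → ℕ => ∏ i, f i (α i)) ∘
          (Fin.consEquiv (fun _ : Fin (n + 1) => ℕ))) =
          fun x : ℕ × (Fin n → ℕ) => f 0 x.1 * ∏ i, f (Fin.succ i) (x.2 i) := by
        funext x
        show ∏ i, f i ((Fin.consEquiv (fun _ : Fin (n + 1) => ℕ)) x i) = _
        rw [Fin.prod_univ_succ]
        rfl
      rw [h6]
      exact h5

theorem expo_hasSum {n : ℕ} (z ζ : Fin n → ℂ) :
    HasSum (fun α : Fin n → ℕ => (∏ i, z i ^ α i / ((α i).factorial : ℂ)) * ∏ i, ζ i ^ α i)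
      (Complex.exp (∑ j, ζ j * z j)) := by
  have h1 := prod_hasSum (fun i k => (z i * ζ i) ^ k / (k.factorial : ℂ)) (fun i => by
    exact NormedSpace.norm_expSeries_div_summable (z i * ζ i))
  have h2 : ∏ i, ∑' k, (z i * ζ i) ^ k / (k.factorial : ℂ) = Complex.exp (∑ j, ζ j * z j) := by
    rw [Complex.exp_sum]
    refine Finset.prod_congr rfl fun i _ => ?_
    rw [Complex.exp_eq_exp_ℂ, NormedSpace.exp_eq_tsum_div, mul_comm (ζ i)]
  rw [← h2]
  have h3 : (fun α : Fin n → ℕ => (∏ i, z i ^ α i / ((α i).factorial : ℂ)) * ∏ i, ζ i ^ α i) =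
      fun α : Fin n → ℕ => ∏ i, (z i * ζ i) ^ α i / ((α i).factorial : ℂ) := by
    funext α
    rw [← Finset.prod_mul_distrib]
    refine Finset.prod_congr rfl fun i _ => ?_
    rw [mul_pow]
    ring
  rw [h3]
  exact h1.2

/-- the geometric series in several variables -/
theorem geom_summable (n : ℕ) (r : ℝ) (h0 : 0 ≤ r) (h1 : r < 1) :
    Summable (fun α : Fin n → ℕ => r ^ (∑ i, α i)) := by
  have h := (prod_hasSum (n := n) (fun _ k => ((r : ℂ)) ^ k) (fun _ => by
    have h2 := summable_geometric_of_lt_one h0 h1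
    refine h2.congr fun k => ?_
    rw [norm_pow, Complex.norm_real, Real.norm_of_nonneg h0])).1
  refine h.congr fun α => ?_
  rw [Finset.prod_pow_eq_pow_sum, norm_pow, Complex.norm_real, Real.norm_of_nonneg h0]

/-! ### jC -/

/-- Cauchy estimate -/
theorem jC_fd_bound {V : Type*} [NormedAddCommGroup V] [NormedSpace ℂ V] (f : V → ℂ)
    (hf : Differentiable ℂ f) (w : V) (M : ℝ) (hM : ∀ y ∈ Metric.closedBall w 1, ‖f y‖ ≤ M) :
    ‖fderiv ℂ f w‖ ≤ M := by
  have hM0 : 0 ≤ M := (norm_nonneg _).trans (hM w (Metric.mem_closedBall_self zero_le_one))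
  refine ContinuousLinearMap.opNorm_le_bound _ hM0 fun v => ?_
  by_cases hv : v = 0
  · rw [hv, map_zero, norm_zero, norm_zero, mul_zero]
  have hv' : 0 < ‖v‖ := norm_pos_iff.mpr hv
  have h1 : HasDerivAt (fun t : ℂ => f (w + t • v)) (fderiv ℂ f w v) 0 := by
    have h2 : HasFDerivAt f (fderiv ℂ f w) (w + (0 : ℂ) • v) := by
      rw [zero_smul, add_zero]
      exact (hf w).hasFDerivAt
    have h3 : HasDerivAt (fun t : ℂ => w + t • v) v 0 := by
      have := ((hasDerivAt_id (0 : ℂ)).smul_const v).const_add w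
      simpa using this
    exact h2.comp_hasDerivAt 0 h3
  have h4 : Differentiable ℂ (fun t : ℂ => f (w + t • v)) := hf.comp (by fun_prop)
  have h5 := Complex.norm_deriv_le_of_forall_mem_sphere_norm_le (c := 0) (R := ‖v‖⁻¹) (C := M)
    (inv_pos.mpr hv') h4.diffContOnCl (by
      intro t ht
      apply hM
      rw [Metric.mem_closedBall, dist_eq_norm, add_sub_cancel_left, norm_smul]
      rw [mem_sphere_zero_iff_norm] at ht
      rw [ht, inv_mul_cancel₀ hv'.ne'])
  rw [h1.deriv, div_inv_eq_mul] at h5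
  exact h5

/-- the weight -/
noncomputable def jC_wt (k : ℕ) (θ : ℝ) : ℂ :=
  deriv (circleMap 0 1) θ * ((1 / (circleMap 0 1 θ - 0)) ^ k * (circleMap 0 1 θ - 0)⁻¹)

theorem jC_wt_cont (k : ℕ) : Continuous (jC_wt k) := by
  have hne : ∀ θ : ℝ, circleMap (0 : ℂ) 1 θ - 0 ≠ 0 := by
    intro θ
    rw [sub_zero]
    exact circleMap_ne_center one_ne_zero
  unfold jC_wt
  simp only [deriv_circleMap]
  have h1 : Continuous (circleMap (0 : ℂ) 1) := continuous_circleMap 0 1
  refine (h1.mul continuous_const).mul ((Continuous.pow ?_ k).mul ?_)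
  · exact continuous_const.div (h1.sub continuous_const) hne
  · exact (h1.sub continuous_const).inv₀ hne

theorem jC_iter_eq (g : ℂ → ℂ) (hg : Differentiable ℂ g) (k : ℕ) :
    iteratedDeriv k g 0 = (k.factorial : ℂ) * ((2 * Real.pi * Complex.I : ℂ)⁻¹ *
      ∫ θ in (0 : ℝ)..2 * Real.pi, jC_wt k θ * g (circleMap 0 1 θ)) := by
  have h1 := (hg.hasFPowerSeriesOnBall 0 (R := 1) one_pos).factorial_smul 1 k
  rw [iteratedDeriv_eq_iteratedFDeriv, ← h1, cauchyPowerSeries_apply, nsmul_eq_mul, smul_eq_mul]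
  congr 2
  unfold circleIntegral jC_wt
  refine intervalIntegral.integral_congr fun θ _ => ?_
  simp only [smul_eq_mul, NNReal.coe_one]
  ring

/-- the Taylor coefficients in the first variable are entire in the other variables -/
theorem coef_diff {n : ℕ} (f : (Fin (n + 1) → ℂ) → ℂ) (hf : Differentiable ℂ f) (k : ℕ) :
    Differentiable ℂ (fun z : Fin n → ℂ =>
      iteratedDeriv k (fun s : ℂ => f (Fin.cons s z : Fin (n + 1) → ℂ)) 0) := by
  let ι : (Fin n → ℂ) →L[ℂ] (Fin (n + 1) → ℂ) := LinearMap.toContinuousLinearMap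
    { toFun := fun z => (Fin.cons 0 z : Fin (n + 1) → ℂ)
      map_add' := fun a b => by
        funext i
        refine Fin.cases ?_ (fun j => ?_) i
        · simp
        · simp
      map_smul' := fun c a => by
        funext i
        refine Fin.cases ?_ (fun j => ?_) i
        · simp
        · simp }
  have hι : ∀ z : Fin n → ℂ, ι z = (Fin.cons 0 z : Fin (n + 1) → ℂ) := fun z => rfl
  have hcons : ∀ (s : ℂ) (z : Fin n → ℂ), (Fin.cons s z : Fin (n + 1) → ℂ) =
      (Fin.cons s 0 : Fin (n + 1) → ℂ) + ι z := by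
    intro s z
    rw [hι]
    funext i
    refine Fin.cases ?_ (fun j => ?_) i
    · simp
    · simp
  have hcont : Continuous (fun p : ℂ × (Fin n → ℂ) => (Fin.cons p.1 p.2 : Fin (n + 1) → ℂ)) := by
    refine continuous_pi fun i => ?_
    refine Fin.cases ?_ (fun j => ?_) i
    · simp only [Fin.cons_zero]
      exact continuous_fst
    · simp only [Fin.cons_succ]
      exact (continuous_apply j).comp continuous_snd
  have hdiffs : ∀ z : Fin n → ℂ,
      Differentiable ℂ (fun s : ℂ => f (Fin.cons s z : Fin (n + 1) → ℂ)) := by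
    intro z
    refine hf.comp ?_
    rw [differentiable_pi]
    intro i
    refine Fin.cases ?_ (fun j => ?_) i
    · simp only [Fin.cons_zero]
      exact differentiable_id
    · simp only [Fin.cons_succ]
      exact differentiable_const _
  have hrep : (fun z : Fin n → ℂ =>
      iteratedDeriv k (fun s : ℂ => f (Fin.cons s z : Fin (n + 1) → ℂ)) 0) = fun z =>
      (k.factorial : ℂ) * ((2 * Real.pi * Complex.I : ℂ)⁻¹ *
        ∫ θ in (0 : ℝ)..2 * Real.pi, jC_wt k θ * f (Fin.cons (circleMap 0 1 θ) z)) := by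
    funext z
    exact jC_iter_eq _ (hdiffs z) k
  rw [hrep]
  refine Differentiable.const_mul (Differentiable.const_mul ?_ _) _
  intro z₀
  -- bound
  have hcm : Continuous (circleMap (0 : ℂ) 1) := continuous_circleMap 0 1
  obtain ⟨M, hM⟩ := (isCompact_closedBall (0 : Fin (n + 1) → ℂ) (‖z₀‖ + 3)).exists_bound_of_continuousOn
    hf.continuous.continuousOn
  obtain ⟨Cw, hCw⟩ := (isCompact_Icc (a := (0 : ℝ)) (b := 2 * Real.pi)).exists_bound_of_continuousOn
    (jC_wt_cont k).continuousOn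
  have hfd : ∀ z ∈ Metric.ball z₀ 1, ∀ θ : ℝ,
      ‖fderiv ℂ f (Fin.cons (circleMap 0 1 θ) z)‖ ≤ M := by
    intro z hz θ
    apply jC_fd_bound f hf
    intro y hy
    apply hM
    rw [Metric.mem_closedBall] at hy ⊢
    rw [Metric.mem_ball] at hz
    have h1 : ‖(Fin.cons (circleMap 0 1 θ) z : Fin (n + 1) → ℂ)‖ ≤ ‖z₀‖ + 2 := by
      rw [pi_norm_le_iff_of_nonneg (by positivity)]
      intro i
      refine Fin.cases ?_ (fun j => ?_) i
      · simp only [Fin.cons_zero]
        rw [norm_circleMap_zero, abs_one]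
        have := norm_nonneg z₀
        linarith
      · simp only [Fin.cons_succ]
        have h2 := norm_le_pi_norm z j
        have h3 : ‖z‖ ≤ ‖z₀‖ + 1 := by
          have h4 := norm_sub_norm_le z z₀
          rw [← dist_eq_norm] at h4
          linarith
        linarith
    have h2 : dist y 0 ≤ dist y (Fin.cons (circleMap 0 1 θ) z : Fin (n + 1) → ℂ) +
        dist (Fin.cons (circleMap 0 1 θ) z : Fin (n + 1) → ℂ) 0 := dist_triangle _ _ _
    rw [dist_zero_right (Fin.cons (circleMap 0 1 θ) z : Fin (n + 1) → ℂ)] at h2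
    linarith
  have hM0 : 0 ≤ M := (norm_nonneg _).trans (hfd z₀ (Metric.mem_ball_self one_pos) 0)
  have hCw0 : 0 ≤ Cw := (norm_nonneg _).trans (hCw 0 ⟨le_rfl, by positivity⟩)
  have hderiv : ∀ (θ : ℝ) (z : Fin n → ℂ), HasFDerivAt
      (fun z => jC_wt k θ * f (Fin.cons (circleMap 0 1 θ) z))
      (jC_wt k θ • (fderiv ℂ f (Fin.cons (circleMap 0 1 θ) z)).comp ι) z := by
    intro θ z
    have h1 : HasFDerivAt (fun z : Fin n → ℂ => (Fin.cons (circleMap 0 1 θ) z : Fin (n + 1) → ℂ))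
        ι z := by
      have h2 : (fun z : Fin n → ℂ => (Fin.cons (circleMap 0 1 θ) z : Fin (n + 1) → ℂ)) =
          fun z => (Fin.cons (circleMap 0 1 θ) 0 : Fin (n + 1) → ℂ) + ι z := by
        funext z
        exact hcons _ _
      rw [h2]
      exact ι.hasFDerivAt.const_add _
    have h3 := ((hf (Fin.cons (circleMap 0 1 θ) z)).hasFDerivAt.comp z h1).const_mul (jC_wt k θ)
    exact h3
  have hmain := intervalIntegral.hasFDerivAt_integral_of_dominated_of_fderiv_le
    (μ := MeasureTheory.volume) (a := 0) (b := 2 * Real.pi)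
    (F := fun (z : Fin n → ℂ) (θ : ℝ) => jC_wt k θ * f (Fin.cons (circleMap 0 1 θ) z))
    (F' := fun z θ => jC_wt k θ • (fderiv ℂ f (Fin.cons (circleMap 0 1 θ) z)).comp ι)
    (x₀ := z₀) (s := Metric.ball z₀ 1) (bound := fun _ => Cw * (M * ‖ι‖))
    (Metric.ball_mem_nhds z₀ one_pos)
    (Filter.Eventually.of_forall fun z =>
      ((jC_wt_cont k).mul (hf.continuous.comp (hcont.comp
        (hcm.prodMk continuous_const)))).aestronglyMeasurable)
    (((jC_wt_cont k).mul (hf.continuous.comp (hcont.comp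
        (hcm.prodMk continuous_const)))).intervalIntegrable _ _)
    (by
      refine (jC_wt_cont k).aestronglyMeasurable.smul ?_
      have h1 : Measurable (fun θ : ℝ => fderiv ℂ f (Fin.cons (circleMap 0 1 θ) z₀)) :=
        (measurable_fderiv ℂ f).comp (hcont.comp (hcm.prodMk continuous_const)).measurable
      have h2 : Continuous (fun L : (Fin (n + 1) → ℂ) →L[ℂ] ℂ => L.comp ι) := by fun_prop
      exact (h2.comp_aestronglyMeasurable h1.aestronglyMeasurable))
    (by
      refine MeasureTheory.ae_of_all _ fun θ hθ z hz => ?_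
      rw [Set.uIoc_of_le (by positivity)] at hθ
      rw [norm_smul]
      refine mul_le_mul (hCw θ ⟨hθ.1.le, hθ.2⟩) ?_ (norm_nonneg _) hCw0
      exact (ContinuousLinearMap.opNorm_comp_le _ _).trans
        (mul_le_mul_of_nonneg_right (hfd z hz θ) (norm_nonneg _)))
    (continuous_const.intervalIntegrable _ _)
    (MeasureTheory.ae_of_all _ fun θ _ z _ => hderiv θ z)
  exact hmain.differentiableAt

/-! ### jCb -/

theorem jCb_coef_aux_diff {n : ℕ} (f : (Fin (n + 1) → ℂ) → ℂ) (hf : Differentiable ℂ f)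
    (z : Fin n → ℂ) : Differentiable ℂ (fun s : ℂ => f (Fin.cons s z : Fin (n + 1) → ℂ)) := by
  have h : Differentiable ℂ (fun s : ℂ => (Fin.cons s z : Fin (n + 1) → ℂ)) := by
    rw [differentiable_pi]
    intro i
    refine Fin.cases ?_ (fun j => ?_) i
    · simp only [Fin.cons_zero]; exact differentiable_id
    · simp only [Fin.cons_succ]; exact differentiable_const _
  exact hf.comp h

theorem coef_bound {n : ℕ} (f : (Fin (n + 1) → ℂ) → ℂ) (hf : Differentiable ℂ f) (k : ℕ)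
    (ρ M : ℝ) (hρ : 0 < ρ) (hM : ∀ z, ‖z‖ ≤ ρ → ‖f z‖ ≤ M) (z : Fin n → ℂ) (hz : ‖z‖ ≤ ρ) :
    ‖iteratedDeriv k (fun s : ℂ => f (Fin.cons s z : Fin (n + 1) → ℂ)) 0 / (k.factorial : ℂ)‖ *
      ρ ^ k ≤ M := by
  have hd := jCb_coef_aux_diff f hf z
  have h1 := Complex.norm_iteratedDeriv_le_of_forall_mem_sphere_norm_le (c := 0) (R := ρ) (C := M)
    (f := fun s : ℂ => f (Fin.cons s z : Fin (n + 1) → ℂ)) k hρ hd.diffContOnCl (by
      intro s hs
      have hs' : ‖s‖ = ρ := by simpa using hs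
      apply hM
      rw [pi_norm_le_iff_of_nonneg hρ.le]
      intro i
      refine Fin.cases ?_ (fun j => ?_) i
      · simp only [Fin.cons_zero]; exact hs'.le
      · simp only [Fin.cons_succ]; exact (norm_le_pi_norm z j).trans hz)
  have hk : (0 : ℝ) < (k.factorial : ℝ) := by exact_mod_cast k.factorial_pos
  have hρk : 0 < ρ ^ k := pow_pos hρ k
  rw [norm_div]
  have hn : ‖((k.factorial : ℕ) : ℂ)‖ = (k.factorial : ℝ) := by simp
  rw [hn]
  calc ‖iteratedDeriv k (fun s : ℂ => f (Fin.cons s z : Fin (n + 1) → ℂ)) 0‖ /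
        (k.factorial : ℝ) * ρ ^ k
      ≤ ((k.factorial : ℝ) * M / ρ ^ k) / (k.factorial : ℝ) * ρ ^ k := by gcongr
    _ = M := by field_simp

theorem coef_hasSum {n : ℕ} (f : (Fin (n + 1) → ℂ) → ℂ) (hf : Differentiable ℂ f) (t : ℂ)
    (z : Fin n → ℂ) :
    HasSum (fun k : ℕ =>
      iteratedDeriv k (fun s : ℂ => f (Fin.cons s z : Fin (n + 1) → ℂ)) 0 / (k.factorial : ℂ) *
        t ^ k) (f (Fin.cons t z : Fin (n + 1) → ℂ)) := by
  have hd := jCb_coef_aux_diff f hf z
  have h := Complex.hasSum_taylorSeries_of_entire hd 0 t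
  have e : (fun k : ℕ =>
      iteratedDeriv k (fun s : ℂ => f (Fin.cons s z : Fin (n + 1) → ℂ)) 0 / (k.factorial : ℂ) *
        t ^ k) = fun k : ℕ => ((k.factorial : ℕ) : ℂ)⁻¹ • (t - 0) ^ k •
          iteratedDeriv k (fun s : ℂ => f (Fin.cons s z : Fin (n + 1) → ℂ)) 0 := by
    funext k
    simp only [sub_zero, smul_eq_mul]
    rw [div_eq_mul_inv]
    ring
  rw [e]
  exact h

/-! ### jTy -/

/-- the Taylor series of an entire function of `n` variables, with Cauchy's estimates -/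
theorem taylor {n : ℕ} (f : (Fin n → ℂ) → ℂ) (hf : Differentiable ℂ f) :
    ∃ c : (Fin n → ℕ) → ℂ,
      (∀ ρ M : ℝ, 0 < ρ → (∀ z, ‖z‖ ≤ ρ → ‖f z‖ ≤ M) → ∀ α, ‖c α‖ * ρ ^ (∑ i, α i) ≤ M) ∧
      ∀ z, HasSum (fun α : Fin n → ℕ => c α * ∏ i, z i ^ α i) (f z) := by
  induction n with
  | zero =>
    refine ⟨fun _ => f 0, ?_, ?_⟩
    · intro ρ M hρ hM α
      have h0 : ‖f 0‖ ≤ M := hM 0 (by rw [norm_zero]; exact hρ.le)
      simpa using h0
    · intro z
      have h1 := hasSum_unique (fun α : Fin 0 → ℕ => f 0 * ∏ i, z i ^ α i)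
      have h2 : z = 0 := Subsingleton.elim _ _
      simpa [h2] using h1
  | succ n ih =>
    let a : ℕ → (Fin n → ℂ) → ℂ := fun k z =>
      iteratedDeriv k (fun s : ℂ => f (Fin.cons s z : Fin (n + 1) → ℂ)) 0 / (k.factorial : ℂ)
    have ha : ∀ k, Differentiable ℂ (a k) := by
      intro k
      simp only [a, div_eq_mul_inv]
      exact (coef_diff f hf k).mul_const _
    choose c' hb hs using fun k => ih (a k) (ha k)
    have hbound : ∀ ρ M : ℝ, 0 < ρ → (∀ z, ‖z‖ ≤ ρ → ‖f z‖ ≤ M) → ∀ α : Fin (n + 1) → ℕ,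
        ‖c' (α 0) (fun i => α i.succ)‖ * ρ ^ (∑ i, α i) ≤ M := by
      intro ρ M hρ hM α
      have hk : 0 < ρ ^ (α 0) := by positivity
      have h1 := hb (α 0) ρ (M / ρ ^ (α 0)) hρ (fun z hz => by
        rw [le_div_iff₀ hk]
        exact coef_bound f hf (α 0) ρ M hρ hM z hz) (fun i => α i.succ)
      rw [le_div_iff₀ hk] at h1
      rw [Fin.sum_univ_succ, pow_add]
      calc ‖c' (α 0) (fun i => α i.succ)‖ * (ρ ^ (α 0) * ρ ^ (∑ i : Fin n, α i.succ))
          = ‖c' (α 0) (fun i => α i.succ)‖ * ρ ^ (∑ i : Fin n, α i.succ) * ρ ^ (α 0) := by ring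
        _ ≤ M := h1
    refine ⟨fun α => c' (α 0) (fun i => α i.succ), hbound, ?_⟩
    intro z
    set F : (Fin (n + 1) → ℕ) → ℂ := fun α => c' (α 0) (fun i => α i.succ) * ∏ i, z i ^ α i with hF
    have hsum : Summable F := by
      set R : ℝ := max 1 ‖z‖ with hR
      have hR1 : 1 ≤ R := le_max_left _ _
      have hRz : ∀ i, ‖z i‖ ≤ R := fun i => (norm_le_pi_norm z i).trans (le_max_right _ _)
      have hR0 : 0 < R := by linarith
      obtain ⟨M, hM⟩ := (isCompact_closedBall (0 : Fin (n + 1) → ℂ) (2 * R)).exists_bound_of_continuousOn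
        hf.continuous.continuousOn
      have hM' : ∀ w, ‖w‖ ≤ 2 * R → ‖f w‖ ≤ M := fun w hw => hM w (by simpa using hw)
      refine Summable.of_norm_bounded (g := fun α : Fin (n + 1) → ℕ => M * (1 / 2 : ℝ) ^ (∑ i, α i))
        ((geom_summable (n + 1) (1 / 2) (by norm_num) (by norm_num)).mul_left M) ?_
      intro α
      have h1 := hbound (2 * R) M (by positivity) hM' α
      have h2 : ‖∏ i, z i ^ α i‖ ≤ R ^ (∑ i, α i) := by
        rw [norm_prod, ← Finset.prod_pow_eq_pow_sum]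
        refine Finset.prod_le_prod (fun i _ => norm_nonneg _) (fun i _ => ?_)
        rw [norm_pow]
        exact pow_le_pow_left₀ (norm_nonneg _) (hRz i) _
      have h3 : R ^ (∑ i, α i) = (2 * R) ^ (∑ i, α i) * (1 / 2 : ℝ) ^ (∑ i, α i) := by
        rw [← mul_pow]
        congr 1
        ring
      calc ‖F α‖ = ‖c' (α 0) (fun i => α i.succ)‖ * ‖∏ i, z i ^ α i‖ := by
            rw [hF, norm_mul]
        _ ≤ ‖c' (α 0) (fun i => α i.succ)‖ * ((2 * R) ^ (∑ i, α i) * (1 / 2 : ℝ) ^ (∑ i, α i)) := by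
            rw [← h3]
            exact mul_le_mul_of_nonneg_left h2 (norm_nonneg _)
        _ = ‖c' (α 0) (fun i => α i.succ)‖ * (2 * R) ^ (∑ i, α i) * (1 / 2 : ℝ) ^ (∑ i, α i) := by
            ring
        _ ≤ M * (1 / 2 : ℝ) ^ (∑ i, α i) :=
            mul_le_mul_of_nonneg_right h1 (by positivity)
    let e : ℕ × (Fin n → ℕ) ≃ (Fin (n + 1) → ℕ) := Fin.consEquiv (fun _ => ℕ)
    have h1 : HasSum (fun p : ℕ × (Fin n → ℕ) => F (e p)) (∑' α, F α) :=
      (e.hasSum_iff).2 hsum.hasSum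
    have h2 : ∀ k : ℕ, HasSum (fun β : Fin n → ℕ => F (e (k, β)))
        (a k (fun i => z i.succ) * z 0 ^ k) := by
      intro k
      have h3 := (hs k (fun i => z i.succ)).mul_right (z 0 ^ k)
      have h7 : (fun β : Fin n → ℕ => F (e (k, β))) =
          fun β => c' k β * (∏ i, (fun i => z (Fin.succ i)) i ^ β i) * z 0 ^ k := by
        funext β
        simp only [hF, e, Fin.consEquiv_apply, Fin.cons_zero, Fin.cons_succ, Fin.prod_univ_succ]
        ring
      rw [h7]
      exact h3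
    have h3 := h1.prod_fiberwise h2
    have h4 := coef_hasSum f hf (z 0) (fun i => z i.succ)
    have h5 : (Fin.cons (z 0) (fun i => z i.succ) : Fin (n + 1) → ℂ) = z := Fin.cons_self_tail z
    rw [h5] at h4
    have h6 : ∑' α, F α = f z := h3.unique h4
    rw [← h6]
    exact hsum.hasSum

/-! ### jA -/

/-- an analytic functional can be applied to a power series term by term -/
theorem T_hasSum {n : ℕ} (T : H n →ₗ[ℂ] ℂ) (hT : IsAnalyticFunctional T)
    (c : (Fin n → ℕ) → ℂ) (F : H n)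
    (hs : ∀ z, HasSum (fun α : Fin n → ℕ => c α * ∏ i, z i ^ α i) (F.1 z)) :
    HasSum (fun α : Fin n → ℕ => c α * T (mono α)) (T F) := by
  classical
  obtain ⟨K, C, hK, hKC⟩ := hT
  obtain ⟨R₀, hR₀⟩ := hK.isBounded.exists_norm_le
  set R : ℝ := max R₀ 0 with hR
  have hRnn : 0 ≤ R := le_max_right _ _
  have hKR : ∀ z ∈ K, ∀ i, ‖z i‖ ≤ R := fun z hz i =>
    (norm_le_pi_norm z i).trans ((hR₀ z hz).trans (le_max_left _ _))
  set b : (Fin n → ℕ) → ℝ := fun α => ‖c α‖ * ∏ i, R ^ α i with hb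
  have hbsum : Summable b := by
    have h1 := (hs (fun _ => (R : ℂ))).summable.norm
    refine h1.congr fun α => ?_
    rw [hb, norm_mul, norm_prod]
    congr 1
    refine Finset.prod_congr rfl fun i _ => ?_
    rw [norm_pow, Complex.norm_real, Real.norm_of_nonneg hRnn]
  have hkey : ∀ s : Finset (Fin n → ℕ), ∀ z ∈ K,
      ‖F.1 z - ∑ α ∈ s, c α * ∏ i, z i ^ α i‖ ≤ ∑' α, b α - ∑ α ∈ s, b α := by
    intro s z hz
    have h1 : HasSum (fun α => (c α * ∏ i, z i ^ α i) -
        (if α ∈ s then c α * ∏ i, z i ^ α i else 0))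
        (F.1 z - ∑ α ∈ s, c α * ∏ i, z i ^ α i) := by
      refine (hs z).sub ?_
      have := hasSum_sum_of_ne_finset_zero (L := SummationFilter.unconditional _) (s := s)
        (f := fun α => if α ∈ s then c α * ∏ i, z i ^ α i else 0)
        (fun α hα => if_neg hα)
      have e : ∑ α ∈ s, (if α ∈ s then c α * ∏ i, z i ^ α i else 0) =
          ∑ α ∈ s, c α * ∏ i, z i ^ α i :=
        Finset.sum_congr rfl fun α hα => if_pos hα
      rwa [e] at this
    have h2 : HasSum (fun α => b α - (if α ∈ s then b α else 0))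
        (∑' α, b α - ∑ α ∈ s, b α) := by
      refine hbsum.hasSum.sub ?_
      have := hasSum_sum_of_ne_finset_zero (L := SummationFilter.unconditional _) (s := s)
        (f := fun α => if α ∈ s then b α else 0)
        (fun α hα => if_neg hα)
      have e : ∑ α ∈ s, (if α ∈ s then b α else 0) = ∑ α ∈ s, b α :=
        Finset.sum_congr rfl fun α hα => if_pos hα
      rwa [e] at this
    refine h1.norm_le_of_bounded h2 fun α => ?_
    by_cases hα : α ∈ s
    · simp [hα]
    · simp only [hα, if_false, sub_zero]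
      rw [norm_mul, norm_prod]
      refine mul_le_mul_of_nonneg_left ?_ (norm_nonneg _)
      refine Finset.prod_le_prod (fun i _ => norm_nonneg _) fun i _ => ?_
      rw [norm_pow]
      exact pow_le_pow_left₀ (norm_nonneg _) (hKR z hz i) _
  have hTs : ∀ s : Finset (Fin n → ℕ),
      ‖(∑ α ∈ s, c α * T (mono α)) - T F‖ ≤ max C 0 * (∑' α, b α - ∑ α ∈ s, b α) := by
    intro s
    have hM : 0 ≤ ∑' α, b α - ∑ α ∈ s, b α := by
      rw [sub_nonneg]
      refine hbsum.sum_le_tsum s fun α _ => ?_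
      rw [hb]
      positivity
    have e1 : (∑ α ∈ s, c α * T (mono α)) - T F = -(T (F - ∑ α ∈ s, c α • mono α)) := by
      rw [map_sub, map_sum]
      simp only [map_smul, smul_eq_mul]
      ring
    rw [e1, norm_neg]
    have h3 := hKC (F - ∑ α ∈ s, c α • mono α) (∑' α, b α - ∑ α ∈ s, b α) hM (by
      intro z hz
      have e2 : (F - ∑ α ∈ s, c α • mono α).1 z = F.1 z - ∑ α ∈ s, c α * ∏ i, z i ^ α i := by
        show (((F - ∑ α ∈ s, c α • mono α : H n) : (Fin n → ℂ) → ℂ)) z = _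
        rw [Submodule.coe_sub, Submodule.coe_sum]
        simp [mono]
      rw [e2]
      exact hkey s z hz)
    exact h3.trans (mul_le_mul_of_nonneg_right (le_max_left _ _) hM)
  have hlim : Filter.Tendsto (fun s : Finset (Fin n → ℕ) =>
      max C 0 * (∑' α, b α - ∑ α ∈ s, b α)) Filter.atTop (nhds 0) := by
    have h4 : Filter.Tendsto (fun s : Finset (Fin n → ℕ) => ∑ α ∈ s, b α) Filter.atTop
        (nhds (∑' α, b α)) := hbsum.hasSum
    have h5 := (h4.const_sub (∑' α, b α)).const_mul (max C 0)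
    simpa using h5
  have hfin : Filter.Tendsto (fun s : Finset (Fin n → ℕ) => ∑ α ∈ s, c α * T (mono α))
      Filter.atTop (nhds (T F)) := by
    rw [tendsto_iff_norm_sub_tendsto_zero]
    exact squeeze_zero (fun _ => norm_nonneg _) hTs hlim
  exact hfin

/-! ### jM -/

private theorem jM_conj_diff_norm {n : ℕ} (h : Fin n → ℂ) :
    ‖(fun i => (starRingEnd ℂ) (h i))‖ = ‖h‖ := by
  simp only [Pi.norm_def]
  congr 1
  apply Finset.sup_congr rfl
  intro i _
  ext
  simp

theorem conj_diff {n : ℕ} (f : (Fin n → ℂ) → ℂ) (hf : Differentiable ℂ f) :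
    Differentiable ℂ (fun z : Fin n → ℂ =>
      (starRingEnd ℂ) (f (fun i => (starRingEnd ℂ) (z i)))) := by
  intro z
  have h1 := (hf (fun i => (starRingEnd ℂ) (z i))).hasFDerivAt
  set L := fderiv ℂ f (fun i => (starRingEnd ℂ) (z i)) with hL
  let L' : (Fin n → ℂ) →ₗ[ℂ] ℂ :=
    { toFun := fun v => (starRingEnd ℂ) (L (fun i => (starRingEnd ℂ) (v i)))
      map_add' := by
        intro v w
        rw [← map_add, ← map_add]
        congr 2
        ext i
        simp
      map_smul' := by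
        intro r v
        have : (fun i => (starRingEnd ℂ) ((r • v) i)) =
            (starRingEnd ℂ r) • (fun i => (starRingEnd ℂ) (v i)) := by
          ext i; simp
        rw [this, map_smul]
        simp }
  have h2 : HasFDerivAt (fun z : Fin n → ℂ =>
      (starRingEnd ℂ) (f (fun i => (starRingEnd ℂ) (z i))))
      (LinearMap.toContinuousLinearMap L') z := by
    rw [hasFDerivAt_iff_isLittleO_nhds_zero] at h1 ⊢
    have hc : Filter.Tendsto (fun h : Fin n → ℂ => (fun i => (starRingEnd ℂ) (h i)))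
        (nhds 0) (nhds 0) := by
      have : Continuous (fun h : Fin n → ℂ => (fun i => (starRingEnd ℂ) (h i))) := by
        apply continuous_pi
        intro i
        exact Complex.continuous_conj.comp (continuous_apply i)
      have h0 := this.tendsto 0
      have h00 : (fun i : Fin n => (starRingEnd ℂ) ((0 : Fin n → ℂ) i)) = 0 := by
        ext i; simp
      rw [h00] at h0
      exact h0
    have h3 := h1.comp_tendsto hc
    rw [← Asymptotics.isLittleO_norm_norm] at h3 ⊢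
    refine h3.congr ?_ ?_
    · intro h
      simp only [Function.comp, LinearMap.coe_toContinuousLinearMap']
      have e1 : (fun i => (starRingEnd ℂ) ((z + h) i)) =
          (fun i => (starRingEnd ℂ) (z i)) + fun i => (starRingEnd ℂ) (h i) := by
        ext i; simp
      rw [e1]
      change _ = ‖(starRingEnd ℂ) _ - (starRingEnd ℂ) _ - (starRingEnd ℂ) _‖
      rw [← map_sub, ← map_sub, Complex.norm_conj]
    · intro h
      exact jM_conj_diff_norm h
  exact h2.differentiableAt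

theorem conj_eval {n : ℕ} (P : MvPolynomial (Fin n) ℂ) (z : Fin n → ℂ) :
    MvPolynomial.eval z (conjP P) =
      (starRingEnd ℂ) (MvPolynomial.eval (fun i => (starRingEnd ℂ) (z i)) P) := by
  induction P using MvPolynomial.induction_on with
  | C a => simp [conjP]
  | add p q hp hq =>
    simp only [conjP, map_add] at *
    rw [hp, hq]
  | mul_X p i hp =>
    simp only [conjP, map_mul, MvPolynomial.map_X, MvPolynomial.eval_X] at *
    rw [hp]
    simp

/-- polynomials have at most exponential growth -/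
theorem poly_exp {n : ℕ} (P : MvPolynomial (Fin n) ℂ) :
    ∃ C B : ℝ, 0 ≤ C ∧ ∀ z : Fin n → ℂ, ‖MvPolynomial.eval z P‖ ≤ C * Real.exp (B * ‖z‖) := by
  induction P using MvPolynomial.induction_on with
  | C a => exact ⟨‖a‖, 0, norm_nonneg _, fun z => by simp⟩
  | add p q hp hq =>
    obtain ⟨C1, B1, h1, hp⟩ := hp
    obtain ⟨C2, B2, h2, hq⟩ := hq
    refine ⟨C1 + C2, max B1 B2, add_nonneg h1 h2, fun z => ?_⟩
    rw [map_add]
    refine (norm_add_le _ _).trans ?_
    rw [add_mul]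
    apply add_le_add
    · refine (hp z).trans (mul_le_mul_of_nonneg_left (Real.exp_le_exp.mpr ?_) h1)
      exact mul_le_mul_of_nonneg_right (le_max_left _ _) (norm_nonneg _)
    · refine (hq z).trans (mul_le_mul_of_nonneg_left (Real.exp_le_exp.mpr ?_) h2)
      exact mul_le_mul_of_nonneg_right (le_max_right _ _) (norm_nonneg _)
  | mul_X p i hp =>
    obtain ⟨C1, B1, h1, hp⟩ := hp
    refine ⟨C1, B1 + 1, h1, fun z => ?_⟩
    rw [map_mul, MvPolynomial.eval_X, norm_mul, add_mul, Real.exp_add, ← mul_assoc]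
    apply mul_le_mul (hp z) _ (norm_nonneg _) (mul_nonneg h1 (Real.exp_pos _).le)
    have h3 : ‖z i‖ ≤ ‖z‖ := norm_le_pi_norm z i
    have h4 := Real.add_one_le_exp ‖z‖
    rw [one_mul]
    linarith

/-! ### jE -/

theorem jE_fb_inner_bound {n : ℕ} {R : ℝ} (ζ z : Fin n → ℂ) (hζ : ‖ζ‖ ≤ R) :
    ‖∑ j, ζ j * z j‖ ≤ n * R * ‖z‖ := by
  have hR : 0 ≤ R := le_trans (norm_nonneg _) hζ
  calc ‖∑ j, ζ j * z j‖ ≤ ∑ j, ‖ζ j * z j‖ := norm_sum_le _ _
    _ ≤ ∑ _j : Fin n, R * ‖z‖ := by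
        refine Finset.sum_le_sum fun j _ => ?_
        rw [norm_mul]
        exact mul_le_mul ((norm_le_pi_norm ζ j).trans hζ) (norm_le_pi_norm z j) (norm_nonneg _) hR
    _ = n * R * ‖z‖ := by
        rw [Finset.sum_const, Finset.card_univ, Fintype.card_fin, nsmul_eq_mul]; ring

/-- the entire function `ζ ↦ ζ j exp ⟨ζ, z⟩` -/
noncomputable def jE_cexpo {n : ℕ} (j : Fin n) (z : Fin n → ℂ) : H n :=
  ⟨fun ζ => ζ j * Complex.exp (∑ j, ζ j * z j), by
    show Differentiable ℂ fun ζ : Fin n → ℂ => ζ j * Complex.exp (∑ j, ζ j * z j)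
    fun_prop⟩

/-- the Fourier-Borel transform of an analytic functional is an entire function of exponential
type -/
theorem fb_exp {n : ℕ} (T : H n →ₗ[ℂ] ℂ) (hT : IsAnalyticFunctional T) : IsExp (FBT T) := by
  obtain ⟨K, C0, hK, hb0⟩ := hT
  obtain ⟨R, hR, hKR⟩ := hK.isBounded.exists_pos_norm_le
  set C : ℝ := max C0 0 with hC
  have hC0 : 0 ≤ C := le_max_right _ _
  have hb : ∀ (f : H n) (M : ℝ), 0 ≤ M → (∀ z ∈ K, ‖f.1 z‖ ≤ M) → ‖T f‖ ≤ C * M :=
    fun f M hM h => (hb0 f M hM h).trans (mul_le_mul_of_nonneg_right (le_max_left _ _) hM)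
  have hnR : 0 ≤ (n:ℝ) * R := by positivity
  have hexpb : ∀ ζ ∈ K, ∀ z : Fin n → ℂ, ‖Complex.exp (∑ j, ζ j * z j)‖ ≤
      Real.exp (n * R * ‖z‖) := by
    intro ζ hζ z
    refine (Complex.norm_exp_le_exp_norm _).trans (Real.exp_le_exp.mpr ?_)
    exact jE_fb_inner_bound ζ z (hKR ζ hζ)
  refine ⟨?_, C, n * R, ?_⟩
  · intro z
    set L : (Fin n → ℂ) →L[ℂ] ℂ :=
      ∑ j, (T (jE_cexpo j z)) • (ContinuousLinearMap.proj (R := ℂ) (φ := fun _ : Fin n => ℂ) j) with hL
    have hLv : ∀ v, L v = ∑ j, T (jE_cexpo j z) * v j := by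
      intro v
      rw [hL]
      simp [ContinuousLinearMap.sum_apply, smul_eq_mul]
    refine HasFDerivAt.differentiableAt (f' := L) ?_
    rw [hasFDerivAt_iff_isLittleO_nhds_zero]
    refine Asymptotics.IsBigO.trans_isLittleO ?_
      (Asymptotics.isLittleO_norm_pow_id (E' := Fin n → ℂ) one_lt_two)
    refine Asymptotics.IsBigO.of_bound (C * (Real.exp (n * R * ‖z‖) * (n * R) ^ 2)) ?_
    have hd : 0 < 1 / (n * R + 1) := by positivity
    filter_upwards [Metric.ball_mem_nhds (0 : Fin n → ℂ) hd] with v hv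
    rw [mem_ball_zero_iff] at hv
    have hv1 : n * R * ‖v‖ ≤ 1 := by
      have h1 : ‖v‖ * (n * R + 1) < 1 := by rwa [lt_div_iff₀ (by positivity)] at hv
      nlinarith [norm_nonneg v]
    have hT1 : FBT T (z + v) - FBT T z - L v =
        T (expo (z + v) - expo z - ∑ j, v j • jE_cexpo j z) := by
      rw [map_sub, map_sub, map_sum, hLv]
      unfold FBT
      congr 1
      refine Finset.sum_congr rfl fun j _ => ?_
      rw [map_smul, smul_eq_mul, mul_comm]
    rw [hT1]
    have hval : ∀ ζ : Fin n → ℂ, (expo (z + v) - expo z - ∑ j, v j • jE_cexpo j z : H n).1 ζ =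
        Complex.exp (∑ j, ζ j * z j) *
          (Complex.exp (∑ j, ζ j * v j) - 1 - ∑ j, ζ j * v j) := by
      intro ζ
      have hs : ((∑ j, v j • jE_cexpo j z : H n)).1 ζ =
          ∑ j, v j * (ζ j * Complex.exp (∑ i, ζ i * z i)) := by
        rw [AddSubmonoidClass.coe_finset_sum, Finset.sum_apply]
        rfl
      show Complex.exp (∑ j, ζ j * (z + v) j) - Complex.exp (∑ j, ζ j * z j) -
        ((∑ j, v j • jE_cexpo j z : H n)).1 ζ = _
      rw [hs]
      have he : ∑ j, ζ j * (z + v) j = ∑ j, ζ j * z j + ∑ j, ζ j * v j := by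
        rw [← Finset.sum_add_distrib]
        refine Finset.sum_congr rfl fun j _ => ?_
        rw [Pi.add_apply]; ring
      rw [he, Complex.exp_add]
      have h2 : ∑ j, v j * (ζ j * Complex.exp (∑ i, ζ i * z i)) =
          Complex.exp (∑ i, ζ i * z i) * ∑ j, ζ j * v j := by
        rw [Finset.mul_sum]
        refine Finset.sum_congr rfl fun j _ => ?_
        ring
      rw [h2]; ring
    have hM : 0 ≤ Real.exp (n * R * ‖z‖) * (n * R * ‖v‖) ^ 2 := by positivity
    have hfin := hb (expo (z + v) - expo z - ∑ j, v j • jE_cexpo j z)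
      (Real.exp (n * R * ‖z‖) * (n * R * ‖v‖) ^ 2) hM (by
        intro ζ hζ
        rw [hval ζ, norm_mul]
        refine mul_le_mul (hexpb ζ hζ z) ?_ (norm_nonneg _) (Real.exp_pos _).le
        have hib := jE_fb_inner_bound ζ v (hKR ζ hζ)
        refine (Complex.norm_exp_sub_one_sub_id_le (hib.trans hv1)).trans ?_
        exact pow_le_pow_left₀ (norm_nonneg _) hib 2)
    refine hfin.trans (le_of_eq ?_)
    rw [Real.norm_of_nonneg (by positivity)]
    ring
  · intro z
    exact hb (expo z) _ (Real.exp_pos _).le (fun ζ hζ => hexpb ζ hζ z)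

/-! ### jF -/

/-- the Taylor series of the Fourier-Borel transform -/
theorem fb_hasSum {n : ℕ} (T : H n →ₗ[ℂ] ℂ) (hT : IsAnalyticFunctional T) (z : Fin n → ℂ) :
    HasSum (fun α : Fin n → ℕ => (∏ i, z i ^ α i / ((α i).factorial : ℂ)) * T (mono α))
      (FBT T z) :=
  T_hasSum T hT (fun α => ∏ i, z i ^ α i / ((α i).factorial : ℂ)) (expo z)
    (fun ζ => expo_hasSum z ζ)

/-- polynomials are dense in the entire functions -/
theorem moments_zero {n : ℕ} (T : H n →ₗ[ℂ] ℂ) (hT : IsAnalyticFunctional T)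
    (h0 : ∀ α, T (mono α) = 0) : T = 0 := by
  apply LinearMap.ext
  intro f
  obtain ⟨c, -, hc⟩ := taylor f.1 f.2
  have h1 := T_hasSum T hT c f hc
  simp only [h0, mul_zero] at h1
  exact h1.unique hasSum_zero

/-- the Fock space norm of the Fourier-Borel transform -/
theorem fock_norm {n : ℕ} (T : H n →ₗ[ℂ] ℂ) (hT : IsAnalyticFunctional T) (F : H n)
    (hF : ∀ ζ, F.1 ζ = (starRingEnd ℂ) (FBT T (fun i => (starRingEnd ℂ) (ζ i)))) :
    HasSum (fun α : Fin n → ℕ => ((‖T (mono α)‖ ^ 2 / ∏ i, ((α i).factorial : ℝ) : ℝ) : ℂ))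
      (T F) := by
  have h1 : ∀ ζ, HasSum (fun α : Fin n → ℕ =>
      ((starRingEnd ℂ) (T (mono α)) / ∏ i, ((α i).factorial : ℂ)) * ∏ i, ζ i ^ α i) (F.1 ζ) := by
    intro ζ
    rw [hF ζ]
    have h2 := (fb_hasSum T hT (fun i => (starRingEnd ℂ) (ζ i))).map (starRingEnd ℂ)
      Complex.continuous_conj
    convert h2 using 1
    funext α
    simp only [Function.comp_apply, map_mul, map_prod, map_div₀, map_pow, Complex.conj_conj,
      map_natCast, Finset.prod_div_distrib]
    ring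
  have h3 := T_hasSum T hT _ F h1
  convert h3 using 1
  funext α
  have h4 : (starRingEnd ℂ) (T (mono α)) * T (mono α) = ((‖T (mono α)‖ ^ 2 : ℝ) : ℂ) := by
    rw [Complex.conj_mul']
    push_cast
    rfl
  rw [div_mul_eq_mul_div, h4]
  push_cast
  rfl

theorem main_inj {n : ℕ} (P : MvPolynomial (Fin n) ℂ) (T : H n →ₗ[ℂ] ℂ)
    (hT : IsAnalyticFunctional T) (hP : ∀ f : H n, T (mulP P f) = 0)
    (g : (Fin n → ℂ) → ℂ) (hg : Differentiable ℂ g)
    (h : ∀ z, FBT T z = MvPolynomial.eval z (conjP P) * g z) : T = 0 := by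
  let G : H n := ⟨fun ζ => (starRingEnd ℂ) (g (fun i => (starRingEnd ℂ) (ζ i))), conj_diff g hg⟩
  have hF : ∀ ζ, (mulP P G).1 ζ =
      (starRingEnd ℂ) (FBT T (fun i => (starRingEnd ℂ) (ζ i))) := by
    intro ζ
    rw [h, map_mul, conj_eval]
    simp only [Complex.conj_conj]
    rfl
  have h1 := fock_norm T hT (mulP P G) hF
  rw [hP G] at h1
  have h2 : HasSum (fun α : Fin n → ℕ => ‖T (mono α)‖ ^ 2 / ∏ i, ((α i).factorial : ℝ)) 0 := by
    rw [← Complex.hasSum_ofReal]
    simpa using h1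
  have hpos : ∀ α : Fin n → ℕ, 0 < ∏ i, ((α i).factorial : ℝ) := fun α =>
    Finset.prod_pos fun i _ => by exact_mod_cast Nat.factorial_pos _
  have h3 := (hasSum_zero_iff_of_nonneg (fun α => div_nonneg (sq_nonneg _) (hpos α).le)).1 h2
  apply moments_zero T hT
  intro α
  have h4 := congrFun h3 α
  have h5 : ‖T (mono α)‖ ^ 2 / ∏ i, ((α i).factorial : ℝ) = 0 := h4
  rw [div_eq_zero_iff] at h5
  rcases h5 with h5 | h5
  · exact norm_eq_zero.1 (pow_eq_zero_iff two_ne_zero |>.1 h5)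
  · exact absurd h5 (hpos α).ne'

/-! ### the result -/

/-- `T` is an analytic functional which annihilates `P · H(ℂ^n)` -/
def Annihilates {n : ℕ} (P : MvPolynomial (Fin n) ℂ) (T : H n →ₗ[ℂ] ℂ) : Prop :=
  IsAnalyticFunctional T ∧ ∀ f : H n, T (mulP P f) = 0

theorem ann_add {n : ℕ} {P : MvPolynomial (Fin n) ℂ} {S T : H n →ₗ[ℂ] ℂ}
    (hS' : Annihilates P S) (hT' : Annihilates P T) : Annihilates P (S + T) := by
  obtain ⟨⟨K, C, hK, h⟩, hS⟩ := hS'
  obtain ⟨⟨K', C', hK', h'⟩, hT⟩ := hT'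
  refine ⟨⟨K ∪ K', C + C', hK.union hK', fun f M hM hf => ?_⟩, fun f => ?_⟩
  · have h1 := h f M hM (fun z hz => hf z (Or.inl hz))
    have h2 := h' f M hM (fun z hz => hf z (Or.inr hz))
    calc ‖(S + T) f‖ ≤ ‖S f‖ + ‖T f‖ := norm_add_le _ _
      _ ≤ C * M + C' * M := add_le_add h1 h2
      _ = (C + C') * M := by ring
  · rw [LinearMap.add_apply, hS, hT, add_zero]

theorem ann_zero {n : ℕ} {P : MvPolynomial (Fin n) ℂ} :
    Annihilates P (0 : H n →ₗ[ℂ] ℂ) :=
  ⟨⟨∅, 0, isCompact_empty, fun f M hM hf => by simp⟩, fun f => rfl⟩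

theorem ann_smul {n : ℕ} {P : MvPolynomial (Fin n) ℂ} (c : ℂ) {T : H n →ₗ[ℂ] ℂ}
    (hT' : Annihilates P T) : Annihilates P (c • T) := by
  obtain ⟨⟨K, C, hK, h⟩, hT⟩ := hT'
  refine ⟨⟨K, ‖c‖ * C, hK, fun f M hM hf => ?_⟩, fun f => ?_⟩
  · calc ‖(c • T) f‖ = ‖c‖ * ‖T f‖ := norm_mul c (T f)
      _ ≤ ‖c‖ * (C * M) := mul_le_mul_of_nonneg_left (h f M hM hf) (norm_nonneg _)
      _ = ‖c‖ * C * M := by ring
  · rw [LinearMap.smul_apply, hT, smul_zero]

/-- the linear functional on `H n` given by an analytic functional -/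
noncomputable def lin {n : ℕ} {T : ((Fin n → ℂ) → ℂ) → ℂ} (hT : IsAF T) : H n →ₗ[ℂ] ℂ where
  toFun f := T f.1
  map_add' f g := hT.add f.1 g.1 f.2 g.2
  map_smul' c f := hT.smul c f.1 f.2

theorem lin_af {n : ℕ} {T : ((Fin n → ℂ) → ℂ) → ℂ} (hT : IsAF T) :
    IsAnalyticFunctional (lin hT) := by
  obtain ⟨K, C, hK, h⟩ := hT.bound
  exact ⟨K, C, hK, fun f M hM hf => h f.1 M f.2 hM hf⟩

theorem lin_ann {n : ℕ} {P : MvPolynomial (Fin n) ℂ} {T : ((Fin n → ℂ) → ℂ) → ℂ}
    (hT : InPerp P T) : Annihilates P (lin hT.1) :=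
  ⟨lin_af hT.1, fun f => hT.2 f.1 f.2⟩

/-- (1) The Fourier-Borel transform maps analytic functionals to functions of exponential type.
(2) `Φ_P` is injective for every `n` and every polynomial `P`: if `S` and `T` are analytic
functionals which annihilate `P · H(ℂ^n)` and `F(S) - F(T)` belongs to `P* · Exp(ℂ^n)`, then
`S = T` on `H(ℂ^n)`. (3) More generally, an analytic functional `T` which annihilates
`P · H(ℂ^n)` and whose Fourier-Borel transform is `P*` times some entire function is `0`. -/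
theorem result :
    (∀ (n : ℕ) (T : ((Fin n → ℂ) → ℂ) → ℂ), IsAF T → ExpType (FBorel T)) ∧
    (∀ (n : ℕ) (P : MvPolynomial (Fin n) ℂ) (S T : ((Fin n → ℂ) → ℂ) → ℂ),
      InPerp P S → InPerp P T → InPStarExp P (fun z => FBorel S z - FBorel T z) →
      ∀ f : (Fin n → ℂ) → ℂ, Entire f → S f = T f) ∧
    (∀ (n : ℕ) (P : MvPolynomial (Fin n) ℂ) (T : ((Fin n → ℂ) → ℂ) → ℂ), InPerp P T →
      ∀ g : (Fin n → ℂ) → ℂ, Entire g →
      (∀ z, FBorel T z = MvPolynomial.eval z (star P) * g z) →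
      ∀ f : (Fin n → ℂ) → ℂ, Entire f → T f = 0) := by
  refine ⟨fun n T hT => fb_exp (lin hT) (lin_af hT), fun n P S T hS hT h f hf => ?_,
    fun n P T hT g hg h f hf => ?_⟩
  · obtain ⟨g, hg, h⟩ := h
    have h1 : Annihilates P (lin hS.1 + (-1 : ℂ) • lin hT.1) :=
      ann_add (lin_ann hS) (ann_smul (-1) (lin_ann hT))
    have h2 : lin hS.1 + (-1 : ℂ) • lin hT.1 = 0 := by
      refine main_inj P _ h1.1 h1.2 g hg.1 fun z => ?_
      refine Eq.trans ?_ (h z)
      show lin hS.1 (expo z) + (-1 : ℂ) * lin hT.1 (expo z) = FBorel S z - FBorel T z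
      rw [neg_one_mul, ← sub_eq_add_neg]
      rfl
    have h3 : S f + (-1 : ℂ) * T f = 0 := LinearMap.congr_fun h2 (⟨f, hf⟩ : H n)
    linear_combination h3
  · have h1 : lin hT.1 = 0 := main_inj P _ (lin_ann hT).1 (lin_ann hT).2 g hg h
    exact LinearMap.congr_fun h1 (⟨f, hf⟩ : H n)

end Pool.Agent.Results.MP_6e521b_an.Injective
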